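import Mathlib
import Pool.Agent.Q174.RadVol

/-!
# The volume of radial metrics of constant Q-curvature -6 on R^4 tends to infinity

Let `u_a` solve the radial initial value problem `Δ² u = -6 e^{4u}`, `u(0) = u'(0) = u'''(0) = 0`,
`u''(0) = a`. Then `V(a) ≥ (2 π² / 3) log a` for `a > 1`, and so `V(a) → ∞` as `a → ∞`.
-/

set_option autoImplicit false

open MeasureTheory Filter Topology Set

namespace Pool.Agent.Results.MP_6d9676_an.VolumeBlowup

/-- `Δ` on radial functions of `ℝ⁴`: `Δ u = u'' + (3 / r) u'`. -/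
noncomputable def lap (u : ℝ → ℝ) (r : ℝ) : ℝ := iteratedDeriv 2 u r + 3 / r * deriv u r

/-- `u` is a solution, defined for all `r ≥ 0`, of the initial value problem
`Δ² u = -6 e^{4u}`, `u(0) = u'(0) = u'''(0) = 0`, `u''(0) = a`. As usual for a radial function
with `u'(0) = u'''(0) = 0`, `u` is extended (evenly, say) to a `C⁴` function on the line; only its
values for `r ≥ 0` enter the equation and the volume. -/
def IsRadialSolution (a : ℝ) (u : ℝ → ℝ) : Prop :=
  ContDiff ℝ 4 u ∧ u 0 = 0 ∧ deriv u 0 = 0 ∧ iteratedDeriv 2 u 0 = a ∧ iteratedDeriv 3 u 0 = 0 ∧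
    ∀ r : ℝ, 0 < r → lap (lap u) r = -6 * Real.exp (4 * u r)

/-- The volume `∫_{ℝ⁴} e^{4 u(|x|)} dx`, an element of `[0, ∞]`. -/
noncomputable def V (u : ℝ → ℝ) : ENNReal :=
  ∫⁻ x : EuclideanSpace ℝ (Fin 4), ENNReal.ofReal (Real.exp (4 * u ‖x‖))

/-- For `a > 1` every solution has volume at least `(2 π² / 3) log a`; hence for every family of
solutions `V(a) → ∞` as `a → +∞`. -/
theorem result :
    (∀ (a : ℝ) (u : ℝ → ℝ), 1 < a → IsRadialSolution a u →
      ENNReal.ofReal (2 * Real.pi ^ 2 / 3 * Real.log a) ≤ V u) ∧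
    (∀ U : ℝ → ℝ → ℝ, (∀ᶠ a in atTop, IsRadialSolution a (U a)) →
      Tendsto (fun a => V (U a)) atTop (𝓝 ⊤)) :=
  ⟨fun _ _ ha hs => Q174.RadVol.V_log ha hs, fun U hU => Q174.RadVol.tendsto_V U hU⟩

end Pool.Agent.Results.MP_6d9676_an.VolumeBlowup
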